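import Mathlib
import Pool.Agent.Lib.helper12.ADC

namespace Pool.Agent.Results.MP_710d87_nt.Extend

open Finset Matrix Pool.Agent.Lib.helper12.ADC

def Icube {k : ℕ} (v : Fin k → Fin 8 → ℤ) (N : ℤ) : Prop :=
  0 < N ∧ ∀ i j, v i ⬝ᵥ v j = if i = j then N else 0

def Q (a b c d : ℚ) : Matrix (Fin 8) (Fin 8) ℚ :=
  !![a, b, c, d, 0, 0, 0, 0;
    -b, a, -d, c, 0, 0, 0, 0;
    -c, d, a, -b, 0, 0, 0, 0;
    -d, -c, b, a, 0, 0, 0, 0;
    0, 0, 0, 0, a, b, c, d;
    0, 0, 0, 0, -b, a, -d, c;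
    0, 0, 0, 0, -c, d, a, -b;
    0, 0, 0, 0, -d, -c, b, a]

theorem Q_orth (a b c d : ℚ) (i j : Fin 8) :
    Q a b c d i ⬝ᵥ Q a b c d j = if i = j then a ^ 2 + b ^ 2 + c ^ 2 + d ^ 2 else 0 := by
  fin_cases i <;> fin_cases j <;> simp [Q, dotProduct, Fin.sum_univ_eight] <;> ring

theorem flip {N : ℚ} (hN : N ≠ 0) (r : Fin 8 → Fin 8 → ℚ)
    (h : ∀ i j, r i ⬝ᵥ r j = if i = j then N else 0) (a c : Fin 8) :
    ∑ i, r i a * r i c = if a = c then N else 0 := by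
  have h1 : Matrix.of r * (N⁻¹ • (Matrix.of r)ᵀ) = 1 := by
    rw [Matrix.mul_smul]
    ext i j
    have := h i j
    unfold dotProduct at this
    simp only [Matrix.smul_apply, mul_apply, transpose_apply, of_apply, this, one_apply]
    split_ifs <;> simp [hN]
  have h3 : (N⁻¹ • (Matrix.of r)ᵀ) * Matrix.of r = 1 := mul_eq_one_comm.1 h1
  rw [Matrix.smul_mul] at h3
  have h2 : (N⁻¹ • ((Matrix.of r)ᵀ * Matrix.of r)) a c = (1 : Matrix (Fin 8) (Fin 8) ℚ) a c := by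
    rw [h3]
  simp only [Matrix.smul_apply, mul_apply, transpose_apply, of_apply, one_apply,
    smul_eq_mul] at h2
  rw [inv_mul_eq_iff_eq_mul₀ hN] at h2
  rw [h2]
  split_ifs <;> simp

theorem rat {k : ℕ} (hk : k ≤ 8) {N : ℤ} {v : Fin k → Fin 8 → ℤ} (h : Icube v N) (n : ℕ) :
    ∃ r : Fin 8 → Fin 8 → ℚ, (∀ i j, r i ⬝ᵥ r j = if i = j then (N : ℚ) else 0) ∧
      ∀ i : Fin k, (i : ℕ) < n → r (Fin.castLE hk i) = fun l => (v i l : ℚ) := by
  have hv : ∀ i j, (fun l => (v i l : ℚ)) ⬝ᵥ (fun l => (v j l : ℚ)) =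
      if i = j then (N : ℚ) else 0 := fun i j => by
    have := congrArg (Int.cast : ℤ → ℚ) (h.2 i j)
    unfold dotProduct at this ⊢
    push_cast at this
    exact this
  induction n with
  | zero =>
    obtain ⟨a, b, c, d, e⟩ := Nat.sum_four_squares N.toNat
    refine ⟨Q a b c d, fun i j => ?_, fun i hi => by omega⟩
    have : (a : ℤ) ^ 2 + b ^ 2 + c ^ 2 + d ^ 2 = N := by
      have := h.1
      zify at e
      omega
    rw [Q_orth, ← this]
    push_cast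
    rfl
  | succ n ih =>
    obtain ⟨r, h1, h2⟩ := ih
    by_cases hn : n < k
    swap
    · exact ⟨r, h1, fun i hi => h2 i (by omega)⟩
    refine ⟨fun i => Pool.Agent.Lib.helper12.ADC.refl (r (Fin.castLE hk ⟨n, hn⟩) - fun l => (v ⟨n, hn⟩ l : ℚ)) (r i),
      fun i j => (refl_dot _ _ _).trans (h1 i j), fun i hi => ?_⟩
    rcases Nat.lt_succ_iff_lt_or_eq.1 hi with hi | hi
    · have e1 := h1 (Fin.castLE hk i) (Fin.castLE hk ⟨n, hn⟩)
      have e2 := hv i ⟨n, hn⟩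
      rw [if_neg fun e => by have := congrArg Fin.val e; simp at this; omega] at e1 e2
      rw [← h2 i hi] at e2 ⊢
      simp only [Pool.Agent.Lib.helper12.ADC.refl, LinearMap.coe_mk, AddHom.coe_mk]
      rw [dotProduct_sub (r (Fin.castLE hk i)), e1, e2]
      simp
    · obtain rfl : i = ⟨n, hn⟩ := Fin.ext hi
      exact refl_swap (by rw [h1, hv]; simp)

theorem result (k : ℕ) (hk1 : 1 ≤ k) (hk : k ≤ 8) (N : ℤ) (v : Fin k → Fin 8 → ℤ)
    (h : Icube v N) :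
    ∃ w : Fin 8 → Fin 8 → ℤ, Icube w N ∧ ∀ i : Fin k, w (Fin.castLE hk i) = v i := by
  obtain ⟨r, h1, h2⟩ := rat hk h k
  have hN : (N : ℚ) ≠ 0 := by exact_mod_cast h.1.ne'
  have h3 := flip hN r h1
  have h4 : ∀ i : {i : Fin 8 // ¬ k ≤ (i : ℕ)}, ∀ a,
      r i a = v ⟨i.1, not_le.1 i.2⟩ a := fun i a => by
    have := h2 ⟨i.1, not_le.1 i.2⟩ (not_le.1 i.2)
    exact congrFun this a
  obtain ⟨b, hb⟩ := integral (ι := {i : Fin 8 // k ≤ (i : ℕ)})
    (Nat.lt_succ_iff.1 ((Fintype.card_subtype_lt (p := fun i : Fin 8 => k ≤ (i : ℕ)) (x := 0)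
      (by simp; omega)).trans_eq (by simp)))
    (fun a i => r i a) fun a c => by
      have := h3 a c
      rw [← Fintype.sum_subtype_add_sum_subtype (fun i : Fin 8 => k ≤ (i : ℕ))] at this
      simp only [h4] at this
      refine ⟨(if a = c then N else 0) - ∑ i : {i : Fin 8 // ¬ k ≤ (i : ℕ)},
        v ⟨i.1, not_le.1 i.2⟩ a * v ⟨i.1, not_le.1 i.2⟩ c, ?_⟩
      push_cast
      rw [← this]
      simp [dotProduct]
  let w : Fin 8 → Fin 8 → ℤ := fun i a =>
    if h : k ≤ (i : ℕ) then b a ⟨i, h⟩ else v ⟨i, not_le.1 h⟩ a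
  refine ⟨w, ⟨h.1, fun i j => ?_⟩, fun i => ?_⟩
  · have := flip hN (fun a i => (w i a : ℚ)) (fun a c => by
      rw [← h3 a c]
      unfold dotProduct
      rw [← Fintype.sum_subtype_add_sum_subtype (fun i : Fin 8 => k ≤ (i : ℕ)),
        ← Fintype.sum_subtype_add_sum_subtype (fun i : Fin 8 => k ≤ (i : ℕ))]
      congr 1
      · have := hb a c
        unfold dotProduct at this
        push_cast at this
        rw [← this]
        exact sum_congr rfl fun i _ => by simp only [w, dif_pos i.2]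
      · exact sum_congr rfl fun i _ => by simp only [w, dif_neg i.2, h4]) i j
    unfold dotProduct
    exact_mod_cast this
  · ext a
    have : ¬ k ≤ ((Fin.castLE hk i : Fin 8) : ℕ) := not_le.2 i.2
    simp only [w, dif_neg this]
    rfl

end Pool.Agent.Results.MP_710d87_nt.Extend
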